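import Mathlib

/-!
# Low-degree polynomials with range sum `k p`

For every prime `p ≥ 7` and every `k` with `2 ≤ k` and `k + 2 < p` the polynomial
`x ^ m - (x - 1) ^ m + k`, `m = (p - 1) / 2`, has degree less than `m`, has range sum `k p`, and is
not of the form `c * ((a * x + b) ^ m + 1) + d`.

Reason: by Euler's criterion its value at `x` is `k + η(x) - η(x - 1)`, where `η` is the quadratic
character; this is an integer in `[k - 2, k + 2]`, so no reduction modulo `p` takes place, and the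
two character sums cancel.
-/

namespace Pool.Agent.Results.MP_1e20d6_nt.RangeSumDisproof

open Polynomial

/-- The polynomial `x ^ m - (x - 1) ^ m + k` with `m = (p - 1) / 2`. -/
noncomputable def cex (p k : ℕ) : (ZMod p)[X] :=
  X ^ ((p - 1) / 2) - (X - C 1) ^ ((p - 1) / 2) + C (k : ZMod p)

theorem degree_diff_lt (p : ℕ) [Fact p.Prime] (m : ℕ) :
    ((X : (ZMod p)[X]) ^ m - (X - C 1) ^ m).degree < (m : WithBot ℕ) := by
  have h1 : ((X : (ZMod p)[X]) ^ m).degree = (m : WithBot ℕ) := degree_X_pow m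
  have h2 : (((X : (ZMod p)[X]) - C 1) ^ m).degree = (m : WithBot ℕ) := by
    rw [degree_pow, degree_X_sub_C]
    simp
  have h3 : ((X : (ZMod p)[X]) ^ m).Monic := monic_X_pow m
  have h4 : (((X : (ZMod p)[X]) - C 1) ^ m).Monic := (monic_X_sub_C 1).pow m
  have := degree_sub_lt_left (h1.trans h2.symm) h3.ne_zero (h3.leadingCoeff.trans h4.leadingCoeff.symm)
  rwa [h1] at this

theorem degree_cex_lt (p k : ℕ) [Fact p.Prime] (hp : 7 ≤ p) :
    (cex p k).degree < (((p - 1) / 2 : ℕ) : WithBot ℕ) := by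
  have hm : 0 < (p - 1) / 2 := by omega
  have h1 := degree_diff_lt p ((p - 1) / 2)
  refine lt_of_le_of_lt (degree_add_le _ _) (max_lt h1 ?_)
  refine lt_of_le_of_lt degree_C_le ?_
  exact_mod_cast hm

theorem natDegree_cex_lt (p k : ℕ) [Fact p.Prime] (hp : 7 ≤ p) :
    (cex p k).natDegree < (p - 1) / 2 := by
  have hm : 0 < (p - 1) / 2 := by omega
  by_cases h0 : cex p k = 0
  · rw [h0, natDegree_zero]; exact hm
  · exact (natDegree_lt_iff_degree_lt h0).2 (degree_cex_lt p k hp)

theorem ringChar_ne_two (p : ℕ) [Fact p.Prime] (hp : 7 ≤ p) : ringChar (ZMod p) ≠ 2 := by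
  rw [ZMod.ringChar_zmod_n]; omega

theorem pow_eq_quadraticChar (p : ℕ) [Fact p.Prime] (hp : 7 ≤ p) (x : ZMod p) :
    x ^ ((p - 1) / 2) = ((quadraticChar (ZMod p) x : ℤ) : ZMod p) := by
  rw [quadraticChar_eq_pow_of_char_ne_two' (ringChar_ne_two p hp), ZMod.card]
  congr 1
  have := (Fact.out : p.Prime).eq_two_or_odd
  omega

theorem quadraticChar_bounds (p : ℕ) [Fact p.Prime] (x : ZMod p) :
    -1 ≤ quadraticChar (ZMod p) x ∧ quadraticChar (ZMod p) x ≤ 1 := by
  by_cases hx : x = 0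
  · subst hx; simp
  · rcases quadraticChar_dichotomy hx with h | h <;> rw [h] <;> norm_num

theorem eval_cex (p k : ℕ) [Fact p.Prime] (hp : 7 ≤ p) (x : ZMod p) :
    (cex p k).eval x =
      (((k : ℤ) + quadraticChar (ZMod p) x - quadraticChar (ZMod p) (x - 1) : ℤ) : ZMod p) := by
  rw [cex, eval_add, eval_sub, eval_pow, eval_pow, eval_sub, eval_X, eval_C, eval_C,
    pow_eq_quadraticChar p hp, pow_eq_quadraticChar p hp]
  push_cast
  ring

theorem val_eval_cex (p k : ℕ) [Fact p.Prime] (hp : 7 ≤ p) (hk : 2 ≤ k) (hkp : k + 2 < p)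
    (x : ZMod p) :
    (((cex p k).eval x).val : ℤ) =
      (k : ℤ) + quadraticChar (ZMod p) x - quadraticChar (ZMod p) (x - 1) := by
  rw [eval_cex p k hp, ZMod.val_intCast]
  have h1 := quadraticChar_bounds p x
  have h2 := quadraticChar_bounds p (x - 1)
  apply Int.emod_eq_of_lt <;> omega

theorem rangeSum_cex (p k : ℕ) [Fact p.Prime] (hp : 7 ≤ p) (hk : 2 ≤ k) (hkp : k + 2 < p) :
    ∑ x : ZMod p, ((cex p k).eval x).val = k * p := by
  have h : ((∑ x : ZMod p, ((cex p k).eval x).val : ℕ) : ℤ) = ((k * p : ℕ) : ℤ) := by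
    rw [Nat.cast_sum, Finset.sum_congr rfl fun x _ => val_eval_cex p k hp hk hkp x,
      Finset.sum_sub_distrib, Finset.sum_add_distrib, Finset.sum_const, Finset.card_univ,
      ZMod.card, quadraticChar_sum_zero (ringChar_ne_two p hp)]
    have h2 : ∑ x : ZMod p, quadraticChar (ZMod p) (x - 1) =
        ∑ x : ZMod p, quadraticChar (ZMod p) x :=
      Equiv.sum_comp (Equiv.subRight (1 : ZMod p)) fun x => quadraticChar (ZMod p) x
    rw [h2, quadraticChar_sum_zero (ringChar_ne_two p hp)]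
    push_cast
    ring
  exact_mod_cast h

theorem eval_one_ne_eval_two (p k : ℕ) [Fact p.Prime] (hp : 7 ≤ p) :
    (cex p k).eval 1 ≠ (cex p k).eval 2 := by
  have hm : (p - 1) / 2 ≠ 0 := by omega
  intro h
  have e1 : (cex p k).eval 1 = 1 + (k : ZMod p) := by
    simp [cex, hm]
  have e2 : (cex p k).eval 2 = 2 ^ ((p - 1) / 2) - 1 + (k : ZMod p) := by
    have : (2 : ZMod p) - 1 = 1 := by ring
    simp [cex, this]
  rw [e1, e2] at h
  have h3 : (2 : ZMod p) ^ ((p - 1) / 2) = 2 := by linear_combination -h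
  have h2 : (2 : ZMod p) ≠ 0 := by
    have : ((2 : ℕ) : ZMod p) ≠ 0 := by
      rw [Ne, ZMod.natCast_eq_zero_iff]
      intro hd
      have := Nat.le_of_dvd (by norm_num) hd
      omega
    exact_mod_cast this
  have h4 : (2 : ZMod p) ^ (p - 1) = 1 := ZMod.pow_card_sub_one_eq_one h2
  have h5 : (2 : ZMod p) ^ (p - 1) = ((2 : ZMod p) ^ ((p - 1) / 2)) ^ 2 := by
    rw [← pow_mul]
    congr 1
    have := (Fact.out : p.Prime).eq_two_or_odd
    omega
  rw [h3, h4] at h5
  have h6 : ((3 : ℕ) : ZMod p) = 0 := by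
    push_cast
    linear_combination -h5
  rw [ZMod.natCast_eq_zero_iff] at h6
  have := Nat.le_of_dvd (by norm_num) h6
  omega

theorem not_standard (p k : ℕ) [Fact p.Prime] (hp : 7 ≤ p) (a b c d : ZMod p) (ha : a ≠ 0)
    (h : ∀ x : ZMod p, (cex p k).eval x = c * ((a * x + b) ^ ((p - 1) / 2) + 1) + d) : False := by
  set m := (p - 1) / 2 with hmdef
  have hm : 0 < m := by omega
  have hmp : m < p := by omega
  -- the right-hand side as a polynomial
  set Q : (ZMod p)[X] := C c * ((C a * X + C b) ^ m + 1) + C d with hQ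
  have hlin : (C a * X + C b : (ZMod p)[X]).degree = 1 := degree_linear ha
  have hpow : ((C a * X + C b : (ZMod p)[X]) ^ m).degree = (m : WithBot ℕ) := by
    rw [degree_pow, hlin]; simp
  have hQdeg : Q.degree ≤ (m : WithBot ℕ) := by
    refine (degree_add_le _ _).trans (max_le ?_ ?_)
    · rw [← smul_eq_C_mul]
      refine (degree_smul_le _ _).trans ((degree_add_le _ _).trans (max_le hpow.le ?_))
      refine degree_one_le.trans ?_
      exact_mod_cast Nat.zero_le m
    · refine degree_C_le.trans ?_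
      exact_mod_cast Nat.zero_le m
  have hcard : ((Finset.univ : Finset (ZMod p)).card : WithBot ℕ) = (p : WithBot ℕ) := by
    rw [Finset.card_univ, ZMod.card]
  have hmp' : (m : WithBot ℕ) < (p : WithBot ℕ) := by exact_mod_cast hmp
  have hPQ : cex p k = Q := by
    refine eq_of_degrees_lt_of_eval_finset_eq (Finset.univ : Finset (ZMod p)) ?_ ?_ ?_
    · rw [hcard]; exact (degree_cex_lt p k hp).trans hmp'
    · rw [hcard]; exact lt_of_le_of_lt hQdeg hmp'
    · intro x _
      rw [h x, hQ]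
      simp
  -- compare the coefficients of `X ^ m`
  have hc1 : (cex p k).coeff m = 0 := coeff_eq_zero_of_degree_lt (degree_cex_lt p k hp)
  have hc2 : Q.coeff m = c * a ^ m := by
    have hlc : ((C a * X + C b : (ZMod p)[X]) ^ m).coeff m = a ^ m := by
      have h1 : ((C a * X + C b : (ZMod p)[X]) ^ m).leadingCoeff = a ^ m := by
        rw [leadingCoeff_pow, leadingCoeff_linear ha]
      rw [leadingCoeff, natDegree_eq_of_degree_eq_some hpow] at h1
      exact h1
    rw [hQ, coeff_add, coeff_C_mul, coeff_add, hlc, coeff_one, coeff_C, if_neg hm.ne',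
      if_neg hm.ne', add_zero, add_zero]
  have hc : c = 0 := by
    rw [hPQ, hc2] at hc1
    rcases mul_eq_zero.1 hc1 with h' | h'
    · exact h'
    · exact absurd h' (pow_ne_zero _ ha)
  refine eval_one_ne_eval_two p k hp ?_
  rw [h 1, h 2, hc]
  ring

/-- For every `k ≥ 2` and every prime `p ≥ 7` with `p > k + 2`, the polynomial
`P = X ^ m - (X - 1) ^ m + k`, where `m = (p - 1) / 2`, has degree less than `m`, range sum `k p`
(values read in `{0, …, p - 1}`), and is not of the form `c ((a x + b) ^ m + 1) + d` with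
`a ≠ 0`. -/
theorem result (k : ℕ) (hk : 2 ≤ k) (p : ℕ) [Fact p.Prime] (hp : 7 ≤ p) (hkp : k + 2 < p) :
    ∃ P : (ZMod p)[X],
      P = X ^ ((p - 1) / 2) - (X - C 1) ^ ((p - 1) / 2) + C (k : ZMod p) ∧
      P.natDegree < (p - 1) / 2 ∧
      ∑ x : ZMod p, (P.eval x).val = k * p ∧
      ¬ ∃ a b c d : ZMod p, a ≠ 0 ∧
        ∀ x : ZMod p, P.eval x = c * ((a * x + b) ^ ((p - 1) / 2) + 1) + d := by
  refine ⟨cex p k, rfl, natDegree_cex_lt p k hp, rangeSum_cex p k hp hk hkp, ?_⟩
  rintro ⟨a, b, c, d, ha, h⟩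
  exact not_standard p k hp a b c d ha h

end Pool.Agent.Results.MP_1e20d6_nt.RangeSumDisproof
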